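import Mathlib

set_option autoImplicit false

namespace Pool.Agent.Results.MP_762e7e_co.Finiteness

open Matrix

/-- The elementary matrix with rows `(a, -1)` and `(1, 0)`. -/
def T {N : ℕ} (a : ZMod N) : Matrix (Fin 2) (Fin 2) (ZMod N) := !![a, -1; 1, 0]

/-- `M [a₁, …, aₙ] = T aₙ * ⋯ * T a₁`. -/
def M {N : ℕ} : List (ZMod N) → Matrix (Fin 2) (Fin 2) (ZMod N)
  | [] => 1
  | a :: l => M l * T a

/-- A solution of `(E_N)` of size `n = l.length ≥ 1`. -/
def IsSolution {N : ℕ} (l : List (ZMod N)) : Prop :=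
  1 ≤ l.length ∧ (M l = 1 ∨ M l = -1)

/-- `IsSum a b c` says that `c = a ⊕ b`:
`(a₁, …, aₙ) ⊕ (b₁, …, bₘ) = (a₁ + bₘ, a₂, …, aₙ₋₁, aₙ + b₁, b₂, …, bₘ₋₁)`. -/
def IsSum {N : ℕ} (a b c : List (ZMod N)) : Prop :=
  ∃ (a₁ aₙ b₁ bₘ : ZMod N) (a' b' : List (ZMod N)),
    a = a₁ :: (a' ++ [aₙ]) ∧ b = b₁ :: (b' ++ [bₘ]) ∧
      c = (a₁ + bₘ) :: (a' ++ (aₙ + b₁) :: b')

/-- `a ∼ b`: `b` is a cyclic rotation of `a` or of its reversal. -/
def Sim {N : ℕ} (a b : List (ZMod N)) : Prop :=
  a.IsRotated b ∨ a.reverse.IsRotated b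

/-- A solution of size at least `3` is reducible if it is equivalent to a sum of two solutions of
size at least `3`. -/
def Reducible {N : ℕ} (c : List (ZMod N)) : Prop :=
  ∃ a b s : List (ZMod N), IsSolution a ∧ 3 ≤ a.length ∧ IsSolution b ∧ 3 ≤ b.length ∧
    IsSum a b s ∧ Sim c s

/-- Irreducible solutions. -/
def IrreducibleSolution {N : ℕ} (c : List (ZMod N)) : Prop :=
  IsSolution c ∧ 3 ≤ c.length ∧ ¬ Reducible c

theorem M_append {N : ℕ} (l₁ l₂ : List (ZMod N)) : M (l₁ ++ l₂) = M l₂ * M l₁ := by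
  induction l₁ with
  | nil => simp [M]
  | cons a l ih => simp [M, ih, Matrix.mul_assoc]

theorem det_T {N : ℕ} (a : ZMod N) : (T a).det = 1 := by
  simp [T, Matrix.det_fin_two]

theorem det_M {N : ℕ} (l : List (ZMod N)) : (M l).det = 1 := by
  induction l with
  | nil => simp [M]
  | cons a l ih => simp [M, ih, det_T]

theorem T_zero_sq {N : ℕ} : (T 0 * T 0 : Matrix (Fin 2) (Fin 2) (ZMod N)) = -1 := by
  ext i j
  fin_cases i <;> fin_cases j <;> simp [T]

theorem comm_pm {N : ℕ} (A B : Matrix (Fin 2) (Fin 2) (ZMod N)) (h : A * B = 1 ∨ A * B = -1) :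
    B * A = 1 ∨ B * A = -1 := by
  rcases h with h | h
  · left; exact mul_eq_one_comm.mp h
  · right
    have h1 : (-A) * B = 1 := by rw [Matrix.neg_mul, h, neg_neg]
    have h2 : B * (-A) = 1 := mul_eq_one_comm.mp h1
    rw [Matrix.mul_neg] at h2
    rw [← h2, neg_neg]

/-- Splitting off a block whose matrix is the identity. -/
theorem reducible_of_block {N : ℕ} (c l blk : List (ZMod N))
    (hrot : c.IsRotated (l ++ blk)) (hM : M (l ++ blk) = 1 ∨ M (l ++ blk) = -1)
    (hl : 3 ≤ l.length) (hb : 1 ≤ blk.length) (hblk : M blk = 1) : Reducible c := by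
  obtain ⟨a₁, l', rfl⟩ : ∃ a₁ l', l = a₁ :: l' := by
    cases l with
    | nil => simp at hl
    | cons a l' => exact ⟨a, l', rfl⟩
  obtain ⟨a', aₙ, rfl⟩ : ∃ a' aₙ, l' = a' ++ [aₙ] := by
    have hne : l' ≠ [] := by
      rintro rfl; simp at hl
    exact ⟨l'.dropLast, l'.getLast hne, (List.dropLast_append_getLast hne).symm⟩
  refine ⟨a₁ :: (a' ++ [aₙ]), 0 :: (blk ++ [0]), a₁ :: (a' ++ [aₙ]) ++ blk,
    ⟨by simp, ?_⟩, hl, ⟨by simp, ?_⟩, by simp; omega, ?_, Or.inl hrot⟩
  · rw [M_append, hblk, one_mul] at hM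
    exact hM
  · right
    have : M (0 :: (blk ++ [0])) = T 0 * M blk * T (0 : ZMod N) := by
      simp [M, M_append]
    rw [this, hblk, mul_one, T_zero_sq]
  · exact ⟨a₁, aₙ, 0, 0, a', blk, rfl, rfl, by simp⟩

/-- Every irreducible solution of `(E_N)` has size less than `N ^ 4 + 3`. -/
theorem length_lt {N : ℕ} [NeZero N] (c : List (ZMod N)) (hc : IrreducibleSolution c) :
    c.length < N ^ 4 + 3 := by
  by_contra hlen
  push Not at hlen
  obtain ⟨⟨-, hsol⟩, -, hirr⟩ := hc
  apply hirr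
  -- two equal prefix matrices
  have hcard : Fintype.card (Matrix (Fin 2) (Fin 2) (ZMod N)) = N ^ 4 := by
    have h1 : Fintype.card (Fin 2 → Fin 2 → ZMod N) = N ^ 4 := by
      simp [ZMod.card, ← pow_mul]
    exact h1
  have hpig : ∃ i j : Fin (N ^ 4 + 1), i ≠ j ∧ M (c.take i) = M (c.take j) := by
    apply Fintype.exists_ne_map_eq_of_card_lt
    rw [hcard, Fintype.card_fin]
    omega
  obtain ⟨i, j, hij, hM⟩ := hpig
  wlog hlt : (i : ℕ) < j generalizing i j with H
  · refine H j i hij.symm hM.symm ?_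
    have : (i : ℕ) ≠ j := fun h => hij (Fin.ext h)
    omega
  have hj : (j : ℕ) ≤ N ^ 4 := by omega
  set l₁ := c.take i with hl₁
  set blk := (c.take j).drop i with hblkdef
  set l₂ := c.drop j with hl₂
  have h12 : c.take j = l₁ ++ blk := by
    have h := List.take_append_drop (i : ℕ) (c.take j)
    rw [List.take_take, Nat.min_eq_left hlt.le] at h
    exact h.symm
  have hc : c = (l₁ ++ blk) ++ l₂ := by
    rw [← h12]; exact (List.take_append_drop (j : ℕ) c).symm
  have hblk : M blk = 1 := by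
    rw [h12, M_append] at hM
    have hu : IsUnit (M l₁) := by
      rw [Matrix.isUnit_iff_isUnit_det, det_M]; exact isUnit_one
    have : M blk * M l₁ = 1 * M l₁ := by rw [one_mul]; exact hM.symm
    exact hu.mul_right_cancel this
  have hlb : blk.length = j - i := by
    simp [hblkdef, List.length_drop, List.length_take]
    omega
  have hl1 : l₁.length = i := by
    simp [hl₁, List.length_take]; omega
  have hl2 : l₂.length = c.length - j := by
    simp [hl₂]
  refine reducible_of_block c (l₂ ++ l₁) blk ?_ ?_ ?_ ?_ hblk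
  · have h : c.IsRotated (l₂ ++ (l₁ ++ blk)) := by
      rw [hc]; exact List.isRotated_append
    simpa [List.append_assoc] using h
  · have h : M l₂ * M (l₁ ++ blk) = 1 ∨ M l₂ * M (l₁ ++ blk) = -1 := by
      rw [← M_append, ← hc]; exact hsol
    have h' := comm_pm _ _ h
    rw [← M_append, ← List.append_assoc] at h'
    exact h'
  · rw [List.length_append, hl1, hl2]; omega
  · rw [hlb]; omega

/-- For every `N ≥ 2` the equation `(E_N)` has only finitely many irreducible solutions. -/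
theorem result : ∀ N : ℕ, 2 ≤ N → {c : List (ZMod N) | IrreducibleSolution c}.Finite := by
  intro N hN
  have : NeZero N := ⟨by omega⟩
  refine (List.finite_length_lt (ZMod N) (N ^ 4 + 3)).subset ?_
  intro c hc
  exact length_lt c hc

end Pool.Agent.Results.MP_762e7e_co.Finiteness
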